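import Pool.Agent.W312.TP.Stm

/-!
Project TP (helper312), MP_b5064f_lc: part SATEQ.
-/

set_option autoImplicit false

namespace Pool.Agent.W636.TP

open Pool.Agent.NPC Pool.Agent.H673R2 Pool.Agent.H673R2.Ts Pool.Agent.W312.TP

/-- value of a literal number -/
def lv (τ : ℕ → Bool) (l : ℕ) : Bool := if l % 2 = 0 then τ (l / 2) else !(τ (l / 2))

/-- the assignment of the elements -/
def sg (τ : ℕ → Bool) (nv m : ℕ) (e : ℕ) : Bool :=
  if e < 2 * nv then lv τ e else
    if e / 2 - nv < 2 * nv * m then
      (if e % 2 = 0 then !(lv τ ((e / 2 - nv) / m)) else lv τ ((e / 2 - nv) / m))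
    else
      (if e % 2 = 0 then !(lv τ ((e / 2 - nv - 2 * nv * m) / m))
        else lv τ ((e / 2 - nv - 2 * nv * m) / m))

theorem lv_lit (τ : ℕ → Bool) (x : Lit ℕ) : lv τ (lit x) = true ↔ τ x.2 = x.1 := by
  obtain ⟨b, v⟩ := x
  cases b
  · simp only [lit, lv, Bool.false_eq_true, if_false]
    rw [if_neg (by omega), show (2 * v + 1) / 2 = v by omega]
    simp
  · simp only [lit, lv, if_true]
    rw [if_pos (by omega), show (2 * v) / 2 = v by omega]

theorem lm_lt {l j m N : ℕ} (hl : l < N) (hj : j < m) : l * m + j < N * m := by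
  calc l * m + j < l * m + m := by omega
    _ = (l + 1) * m := by ring
    _ ≤ N * m := Nat.mul_le_mul_right _ hl

theorem lm_div {l j m : ℕ} (hj : j < m) : (l * m + j) / m = l := by
  rw [Nat.add_comm, Nat.add_mul_div_right _ _ (by omega : 0 < m), Nat.div_eq_of_lt hj, zero_add]

theorem sg_y (τ : ℕ → Bool) (nv m l j : ℕ) (hl : l < 2 * nv) (hj : j < m) :
    sg τ nv m (2 * (nv + (l * m + j))) = !(lv τ l) ∧
      sg τ nv m (2 * (nv + (l * m + j)) + 1) = lv τ l := by
  have h1 := lm_lt hl hj
  have h2 : (2 * (nv + (l * m + j))) / 2 - nv = l * m + j := by omega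
  have h3 : (2 * (nv + (l * m + j)) + 1) / 2 - nv = l * m + j := by omega
  constructor
  · unfold sg
    rw [if_neg (by omega), h2, if_pos h1, if_pos (by omega), lm_div hj]
  · unfold sg
    rw [if_neg (by omega), h3, if_pos h1, if_neg (by omega), lm_div hj]

theorem sg_w (τ : ℕ → Bool) (nv m l j : ℕ) (hj : j < m) :
    sg τ nv m (2 * (nv + 2 * nv * m + (l * m + j))) = !(lv τ l) ∧
      sg τ nv m (2 * (nv + 2 * nv * m + (l * m + j)) + 1) = lv τ l := by
  generalize hK : 2 * nv * m = K
  have h2 : (2 * (nv + K + (l * m + j))) / 2 - nv = K + (l * m + j) := by omega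
  have h3 : (2 * (nv + K + (l * m + j)) + 1) / 2 - nv = K + (l * m + j) := by omega
  constructor
  · unfold sg
    rw [if_neg (by omega), h2, hK, if_neg (by omega), if_pos (by omega), Nat.add_sub_cancel_left,
      lm_div hj]
  · unfold sg
    rw [if_neg (by omega), h3, hK, if_neg (by omega), if_neg (by omega), Nat.add_sub_cancel_left,
      lm_div hj]

theorem sg_pair (τ : ℕ → Bool) (nv m i : ℕ) :
    sg τ nv m (2 * i + 1) = !(sg τ nv m (2 * i)) := by
  unfold sg
  by_cases h : 2 * i < 2 * nv
  · rw [if_pos h, if_pos (by omega)]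
    unfold lv
    rw [if_neg (by omega), if_pos (by omega), show (2 * i + 1) / 2 = i by omega,
      show 2 * i / 2 = i by omega]
  · rw [if_neg h, if_neg (by omega), show (2 * i + 1) / 2 = i by omega,
      show 2 * i / 2 = i by omega, if_neg (by omega : ¬ (2 * i + 1) % 2 = 0),
      if_neg (by omega : ¬ (2 * i + 1) % 2 = 0), if_pos (by omega : 2 * i % 2 = 0),
      if_pos (by omega : 2 * i % 2 = 0)]
    split_ifs <;> simp

theorem sg_lt (τ : ℕ → Bool) (nv m e : ℕ) (h : e < 2 * nv) : sg τ nv m e = lv τ e := by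
  unfold sg; rw [if_pos h]

theorem lit_lt {φ : List (Lit ℕ × Lit ℕ × Lit ℕ)} (x : Lit ℕ) (h : x.2 < 3 * φ.length) :
    lit x < 2 * nv φ := by
  unfold lit nv
  split_ifs <;> omega

theorem proof_SATEQ : SATEQ := by
  intro φ hb
  constructor
  · rintro ⟨τ, hτ⟩
    refine ⟨sg τ (nv φ) φ.length, fun i _ => sg_pair _ _ _ i, ?_⟩
    intro g hg
    unfold gOf at hg
    rw [List.mem_append] at hg
    rcases hg with hg | hg
    · rw [List.mem_flatMap] at hg
      obtain ⟨l, hl, hg⟩ := hg
      rw [List.mem_map] at hg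
      obtain ⟨j, hj, rfl⟩ := hg
      rw [List.mem_range] at hl hj
      have h1 : sg τ (nv φ) φ.length (hd φ l j) = lv τ l := by
        unfold hd
        split_ifs with h0
        · exact sg_lt _ _ _ _ hl
        · exact (sg_w τ (nv φ) φ.length l (j - 1) (by omega)).2
      have h2 : sg τ (nv φ) φ.length (yv φ l j) = !(lv τ l) := (sg_y τ _ _ l j hl hj).1
      have h3 : sg τ (nv φ) φ.length (wv φ l j) = !(lv τ l) := (sg_w τ _ _ l j hj).1
      unfold gadSat
      rw [if_neg (by simp)]
      simp only [h1, h2, h3]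
      cases lv τ l <;> simp
    · rw [List.mem_map] at hg
      obtain ⟨⟨c, j⟩, hc, rfl⟩ := hg
      rw [List.mem_zipIdx_iff_getElem?] at hc
      simp only at hc
      have hj : j < φ.length := (List.getElem?_eq_some_iff.1 hc).1
      have hcm : c ∈ φ := List.mem_of_getElem? hc
      obtain ⟨b1, b2, b3⟩ := hb c hcm
      have e1 : sg τ (nv φ) φ.length (yv φ (lit c.1) j + 1) = lv τ (lit c.1) :=
        (sg_y τ _ _ _ j (lit_lt c.1 b1) hj).2
      have e2 : sg τ (nv φ) φ.length (yv φ (lit c.2.1) j + 1) = lv τ (lit c.2.1) :=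
        (sg_y τ _ _ _ j (lit_lt c.2.1 b2) hj).2
      have e3 : sg τ (nv φ) φ.length (yv φ (lit c.2.2) j + 1) = lv τ (lit c.2.2) :=
        (sg_y τ _ _ _ j (lit_lt c.2.2 b3) hj).2
      unfold gadSat
      rw [if_pos rfl]
      simp only [e1, e2, e3, lv_lit]
      exact hτ c hcm
  · rintro ⟨σ, hσ, hg⟩
    refine ⟨fun v => σ (2 * v), ?_⟩
    have hA : ∀ l < 2 * nv φ, ∀ j < φ.length,
        gadSat σ (false, hd φ l j, yv φ l j, wv φ l j) := by
      intro l hl j hj
      apply hg
      unfold gOf
      rw [List.mem_append]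
      left
      rw [List.mem_flatMap]
      exact ⟨l, List.mem_range.2 hl, List.mem_map.2 ⟨j, List.mem_range.2 hj, rfl⟩⟩
    have hw : ∀ l < 2 * nv φ, ∀ j < φ.length, σ (wv φ l j + 1) = !(σ (wv φ l j)) := by
      intro l hl j hj
      have h1 := lm_lt hl hj
      refine hσ _ ?_
      unfold pOf
      have : 4 * nv φ * φ.length = 2 * nv φ * φ.length + 2 * nv φ * φ.length := by ring
      omega
    have hy : ∀ l < 2 * nv φ, ∀ j < φ.length, σ (yv φ l j + 1) = !(σ (yv φ l j)) := by
      intro l hl j hj
      have h1 := lm_lt hl hj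
      refine hσ _ ?_
      unfold pOf
      have : 4 * nv φ * φ.length = 2 * nv φ * φ.length + 2 * nv φ * φ.length := by ring
      omega
    have key : ∀ l < 2 * nv φ, ∀ j, j < φ.length → σ (hd φ l j) = true → σ l = true := by
      intro l hl j
      induction j with
      | zero => intro _ h; simpa [hd] using h
      | succ j ih =>
        intro hj h
        have h1 : hd φ l (j + 1) = wv φ l j + 1 := by simp [hd]
        rw [h1, hw l hl j (by omega)] at h
        have h2 : σ (wv φ l j) = false := by simpa using h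
        have h3 := hA l hl j (by omega)
        unfold gadSat at h3
        rw [if_neg (by simp)] at h3
        simp only at h3
        rcases h3 with h3 | h3
        · exact ih (by omega) h3
        · rw [h2] at h3; simp at h3
    have key2 : ∀ l < 2 * nv φ, ∀ j, j < φ.length → σ (yv φ l j + 1) = true → σ l = true := by
      intro l hl j hj h
      rw [hy l hl j hj] at h
      have h2 : σ (yv φ l j) = false := by simpa using h
      have h3 := hA l hl j hj
      unfold gadSat at h3
      rw [if_neg (by simp)] at h3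
      simp only at h3
      rcases h3 with h3 | h3
      · exact key l hl j hj h3
      · rw [h2] at h3; simp at h3
    have hp : ∀ v < nv φ, σ (2 * v + 1) = !(σ (2 * v)) := by
      intro v hv
      refine hσ v ?_
      unfold pOf
      omega
    have hlit : ∀ x : Lit ℕ, x.2 < 3 * φ.length → σ (lit x) = true → σ (2 * x.2) = x.1 := by
      intro x hx h
      obtain ⟨b, v⟩ := x
      cases b
      · simp only [lit, Bool.false_eq_true, if_false] at h
        rw [hp v (by simpa [nv] using hx)] at h
        simpa using h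
      · simpa [lit] using h
    intro c hc
    obtain ⟨j, hj⟩ := List.mem_iff_getElem?.1 hc
    have hjl : j < φ.length := (List.getElem?_eq_some_iff.1 hj).1
    obtain ⟨b1, b2, b3⟩ := hb c hc
    have h4 : gadSat σ (true, yv φ (lit c.1) j + 1, yv φ (lit c.2.1) j + 1,
        yv φ (lit c.2.2) j + 1) := by
      apply hg
      unfold gOf
      rw [List.mem_append]
      right
      rw [List.mem_map]
      exact ⟨(c, j), List.mem_zipIdx_iff_getElem?.2 hj, rfl⟩
    unfold gadSat at h4
    rw [if_pos rfl] at h4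
    simp only at h4 ⊢
    rcases h4 with h | h | h
    · left; exact hlit _ b1 (key2 _ (lit_lt _ b1) j hjl h)
    · right; left; exact hlit _ b2 (key2 _ (lit_lt _ b2) j hjl h)
    · right; right; exact hlit _ b3 (key2 _ (lit_lt _ b3) j hjl h)

end Pool.Agent.W636.TP
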